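import Mathlib

namespace Pool.Agent.Results.MP_814f17_an.Yes

open Filter Topology Finset Nat

/-- Bernstein polynomial on the simplex -/
noncomputable def B (n : ℕ) (f : ℂ → ℂ → ℂ) (x y : ℂ) : ℂ :=
  ∑ k ∈ range (n + 1), ∑ j ∈ range (n - k + 1), (n ! : ℂ) / (k ! * j ! * (n - k - j)!) *
    x ^ k * y ^ j * (1 - x - y) ^ (n - k - j) * f (k / n) (j / n)

/-- derivative in the first variable -/
noncomputable def d1 (f : ℂ → ℂ → ℂ) (x y : ℂ) : ℂ := deriv (fun z => f z y) x

/-- derivative in the second variable -/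
noncomputable def d2 (f : ℂ → ℂ → ℂ) (x y : ℂ) : ℂ := deriv (fun z => f x z) y

/-- the remainder -/
noncomputable def E (n : ℕ) (f : ℂ → ℂ → ℂ) (x y : ℂ) : ℂ :=
  B n f x y - f x y - 1 / (2 * n) * (x * (1 - x) * d1 (d1 f) x y - 2 * x * y * d1 (d2 f) x y +
    y * (1 - y) * d2 (d2 f) x y)

theorem stir (x k : ℕ) : x ^ k = ∑ a ∈ range (k + 1), stirlingSecond k a * x.descFactorial a := by
  induction k with
  | zero => simp
  | succ k ih =>
    have h1 : ∀ a, x.descFactorial a * x = x.descFactorial (a + 1) + a * x.descFactorial a := by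
      intro a
      rcases le_or_gt a x with h | h
      · rw [descFactorial_succ, ← add_mul, Nat.sub_add_cancel h, mul_comm]
      · simp [descFactorial_eq_zero_iff_lt.2 h]
    have h2 : ∑ a ∈ range (k + 1), stirlingSecond k a * (a * x.descFactorial a) =
        ∑ a ∈ range (k + 1), (a + 1) * stirlingSecond k (a + 1) * x.descFactorial (a + 1) := by
      rw [sum_range_succ', sum_range_succ, stirlingSecond_eq_zero_of_lt (lt_succ_self k)]
      simp only [zero_mul, mul_zero, add_zero]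
      exact sum_congr rfl fun a _ => by ring
    rw [pow_succ, ih, sum_mul, sum_range_succ' _ (k + 1)]
    simp only [mul_assoc, h1, mul_add, sum_add_distrib, h2, stirlingSecond_succ_succ, add_mul,
      stirlingSecond_succ_zero, zero_mul, add_zero]
    ring

theorem one_dim (n a : ℕ) (u v : ℂ) :
    ∑ K ∈ range (n + 1), (n.choose K * K.descFactorial a : ℕ) * u ^ K * v ^ (n - K) =
      n.descFactorial a * u ^ a * (u + v) ^ (n - a) := by
  rcases le_or_gt a n with h | h
  · obtain ⟨m, rfl⟩ := Nat.exists_eq_add_of_le h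
    rw [add_assoc, sum_range_add, sum_eq_zero fun K hK => by
      simp [descFactorial_eq_zero_iff_lt.2 (mem_range.1 hK)], zero_add, add_pow, mul_sum,
      Nat.add_sub_cancel_left]
    refine sum_congr rfl fun i _ => ?_
    rw [descFactorial_eq_factorial_mul_choose, descFactorial_eq_factorial_mul_choose,
      mul_left_comm, choose_mul (Nat.le_add_right a i), Nat.add_sub_cancel_left,
      Nat.add_sub_cancel_left, Nat.add_sub_add_left]
    push_cast
    ring
  · rw [descFactorial_eq_zero_iff_lt.2 h, sum_eq_zero fun K hK => by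
      simp [descFactorial_eq_zero_iff_lt.2 ((Nat.le_of_lt_succ (mem_range.1 hK)).trans_lt h)]]
    simp

theorem two_dim (n a b : ℕ) (x y : ℂ) :
    ∑ k ∈ range (n + 1), ∑ j ∈ range (n - k + 1), (n ! : ℂ) / (k ! * j ! * (n - k - j)!) *
      x ^ k * y ^ j * (1 - x - y) ^ (n - k - j) * (k.descFactorial a * j.descFactorial b) =
      n.descFactorial (a + b) * x ^ a * y ^ b := by
  have h1 : ∀ k ∈ range (n + 1), ∑ j ∈ range (n - k + 1), (n ! : ℂ) / (k ! * j ! * (n - k - j)!) *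
      x ^ k * y ^ j * (1 - x - y) ^ (n - k - j) * (k.descFactorial a * j.descFactorial b) =
      n.descFactorial b * y ^ b * (((n - b).choose k * k.descFactorial a : ℕ) * x ^ k *
        (1 - x) ^ (n - b - k)) := fun k hk => by
    have h2 := one_dim (n - k) b y (1 - x - y)
    have h3 : n.choose k * (n - k).descFactorial b = n.descFactorial b * (n - b).choose k := by
      have h3 := choose_mul (n := n) (Nat.le_add_right k b)
      have h4 := choose_mul (n := n) (Nat.le_add_left b k)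
      rw [Nat.add_sub_cancel_left] at h3
      rw [Nat.add_sub_cancel, choose_symm_add.symm, h3] at h4
      rw [descFactorial_eq_factorial_mul_choose, descFactorial_eq_factorial_mul_choose,
        mul_left_comm, h4, mul_assoc]
    have h4 : (n.choose k : ℂ) * (n - k).descFactorial b =
        n.descFactorial b * (n - b).choose k := by exact_mod_cast h3
    rw [add_sub_cancel, Nat.sub_right_comm] at h2
    calc _ = (n.choose k * k.descFactorial a * x ^ k : ℂ) * ∑ j ∈ range (n - k + 1),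
          ((n - k).choose j * j.descFactorial b : ℕ) * y ^ j * (1 - x - y) ^ (n - k - j) := by
          rw [mul_sum]
          refine sum_congr rfl fun j hj => ?_
          push_cast
          rw [cast_choose ℂ (Nat.le_of_lt_succ (mem_range.1 hk)),
            cast_choose ℂ (Nat.le_of_lt_succ (mem_range.1 hj))]
          have : ((n - k)! : ℂ) ≠ 0 := by exact_mod_cast factorial_ne_zero _
          field_simp
      _ = _ := by
          rw [h2]
          push_cast
          linear_combination (k.descFactorial a * x ^ k * y ^ b * (1 - x) ^ (n - b - k) : ℂ) * h4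
  rw [sum_congr rfl h1, ← mul_sum, ← sum_subset (s₁ := range (n - b + 1))
    (range_subset_range.2 (by omega)) fun k _ hk => by
      simp [choose_eq_zero_of_lt (not_le.1 fun h => hk (mem_range.2 (Nat.lt_succ_of_le h)))],
    one_dim, ← descFactorial_mul_descFactorial (Nat.le_add_left b a), Nat.add_sub_cancel]
  simp
  ring

theorem B_mono (n k j : ℕ) (x y : ℂ) : B n (fun u v => u ^ k * v ^ j) x y =
    (∑ a ∈ range (k + 1), stirlingSecond k a * ∑ b ∈ range (j + 1), stirlingSecond j b *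
      (n.descFactorial (a + b) * x ^ a * y ^ b)) / (n ^ k * n ^ j) := by
  simp only [← two_dim, mul_sum, sum_div, B]
  symm
  rw [sum_congr rfl fun a _ => sum_comm, sum_comm]
  refine sum_congr rfl fun K _ => ?_
  rw [sum_congr rfl fun a _ => sum_comm, sum_comm]
  refine sum_congr rfl fun J _ => ?_
  rw [div_pow, div_pow, ← Nat.cast_pow K, ← Nat.cast_pow J, stir K k, stir J j]
  push_cast
  rw [_root_.div_mul_div_comm (∑ _ ∈ _, _), sum_mul_sum, sum_div, mul_sum]
  refine sum_congr rfl fun a _ => ?_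
  rw [sum_div, mul_sum]
  exact sum_congr rfl fun b _ => by ring

theorem split1 {R : Type} [CommSemiring R] (k : ℕ) (g : ℕ → R) :
    ∑ a ∈ range (k + 1), stirlingSecond k a * g a =
      g k + ∑ a ∈ range k, stirlingSecond k a * g a := by
  rw [sum_range_succ, stirlingSecond_self, cast_one, one_mul, add_comm]

theorem split2 {R : Type} [CommSemiring R] (k : ℕ) (g : ℕ → R) :
    ∑ a ∈ range (k + 1), stirlingSecond k a * g a =
      g k + k.choose 2 * g (k - 1) + ∑ a ∈ range (k - 1), stirlingSecond k a * g a := by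
  rw [split1]
  rcases k with _ | k
  · simp
  · rw [sum_range_succ, stirlingSecond_succ_self_left, Nat.add_sub_cancel]
    ring

/-- normalised falling factorial -/
noncomputable def D (n m : ℕ) : ℝ := n.descFactorial m / n ^ m

theorem D_bd {n : ℕ} (hn : 1 ≤ n) (m : ℕ) : 0 ≤ D n m ∧ D n m ≤ 1 ∧
    0 ≤ D n m - 1 + m.choose 2 / n ∧ D n m - 1 + m.choose 2 / n ≤ m ^ 4 / n ^ 2 := by
  have h0 : (0 : ℝ) < n := by exact_mod_cast hn
  refine ⟨by unfold D; positivity, (div_le_one (by positivity)).2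
    (by exact_mod_cast descFactorial_le_pow n m), ?_⟩
  induction m with
  | zero => simp [D]
  | succ m ih =>
    have h1 : D n (m + 1) = D n m * (1 - m / n) := by
      simp only [D, descFactorial_succ]
      rcases le_or_gt m n with h | h
      · push_cast [h]
        field_simp
        ring
      · simp [descFactorial_eq_zero_iff_lt.2 h]
    have h2 : D n m ≤ 1 := (div_le_one (by positivity)).2
      (by exact_mod_cast descFactorial_le_pow n m)
    have h3 : D n (m + 1) - 1 + (m + 1).choose 2 / n =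
        D n m - 1 + m.choose 2 / n + m / n * (1 - D n m) := by
      rw [h1, cast_choose_two, cast_choose_two]
      push_cast
      ring
    have h4 : (0 : ℝ) ≤ m := m.cast_nonneg
    have h5 : (m : ℝ) / n * (1 - D n m) ≤ m / n * (m ^ 2 / n) := by
      gcongr
      have : (m.choose 2 : ℝ) / n ≤ m ^ 2 / n := by
        gcongr
        rw [cast_choose_two]
        nlinarith
      linarith [ih.1]
    have h6 : (m : ℝ) ^ 4 / n ^ 2 + m / n * (m ^ 2 / n) ≤ ((m + 1 : ℕ) : ℝ) ^ 4 / n ^ 2 := by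
      rw [_root_.div_mul_div_comm, ← sq, ← add_div]
      gcongr
      push_cast
      nlinarith [pow_nonneg h4 2, pow_nonneg h4 3]
    rw [h3]
    exact ⟨add_nonneg ih.1 (mul_nonneg (by positivity) (by linarith)), by linarith [ih.2]⟩

theorem c2_le (m : ℕ) : (m.choose 2 : ℝ) ≤ m ^ 2 := by
  rw [cast_choose_two]
  nlinarith [m.cast_nonneg (α := ℝ)]

theorem D_pred {n : ℕ} (hn : 1 ≤ n) (k j : ℕ) :
    |(k.choose 2 : ℝ) * (n.descFactorial (k - 1 + j) / n ^ (k + j) - 1 / n)| ≤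
      (k + j) ^ 4 / n ^ 2 := by
  have h0 : (0 : ℝ) < n := by exact_mod_cast hn
  rcases k with _ | k
  · simp only [choose_zero_succ, cast_zero, zero_mul, abs_zero]
    positivity
  obtain ⟨-, h1, h2, -⟩ := D_bd hn (k + j)
  have h3 : (n.descFactorial (k + 1 - 1 + j) : ℝ) / n ^ (k + 1 + j) - 1 / n =
      -((1 - D n (k + j)) / n) := by
    simp only [D, Nat.add_sub_cancel, pow_add]
    field_simp
    ring
  have h4 : 1 - D n (k + j) ≤ ((k + 1 : ℕ) + j) ^ 2 / n := by
    have : ((k + j).choose 2 : ℝ) / n ≤ ((k + 1 : ℕ) + j) ^ 2 / n := by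
      gcongr
      refine (c2_le _).trans ?_
      push_cast
      gcongr
      linarith
    linarith
  have h5 : ((k + 1).choose 2 : ℝ) ≤ ((k + 1 : ℕ) + j) ^ 2 :=
    (c2_le _).trans (by gcongr; simp)
  rw [h3, mul_neg, abs_neg, abs_of_nonneg (mul_nonneg (by positivity)
    (div_nonneg (by linarith) h0.le))]
  calc _ ≤ (((k + 1 : ℕ) : ℝ) + j) ^ 2 * ((((k + 1 : ℕ) : ℝ) + j) ^ 2 / n / n) := by
        gcongr
    _ = _ := by ring

theorem rest {n : ℕ} (hn : 1 ≤ n) (k : ℕ) :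
    (∑ a ∈ range k, stirlingSecond k a * (n.descFactorial a : ℝ)) / n ^ k ≤ k ^ 2 / n ∧
    (∑ a ∈ range (k - 1), stirlingSecond k a * (n.descFactorial a : ℝ)) / n ^ k ≤
      2 * k ^ 4 / n ^ 2 ∧ (k.choose 2 * n.descFactorial (k - 1) : ℝ) / n ^ k ≤ k ^ 2 / n := by
  have h0 : (0 : ℝ) < n := by exact_mod_cast hn
  have h1 : (∑ a ∈ range (k + 1), stirlingSecond k a * (n.descFactorial a : ℝ)) / n ^ k = 1 := by
    rw [div_eq_one_iff_eq (by positivity)]
    exact_mod_cast (stir n k).symm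
  have h2 := h1
  rw [split1, add_div] at h1
  rw [split2, add_div, add_div] at h2
  obtain ⟨-, -, h3, h4⟩ := D_bd hn k
  have h5 := abs_le.1 (D_pred hn k 0)
  have h6 : (k.choose 2 : ℝ) / n ≤ k ^ 2 / n := by
    gcongr
    exact c2_le k
  have h7 : 0 ≤ (∑ a ∈ range (k - 1), stirlingSecond k a * (n.descFactorial a : ℝ)) / n ^ k := by
    positivity
  simp only [D, add_zero, cast_zero, mul_sub, ← mul_div_assoc, mul_one] at *
  refine ⟨by linarith, ?_, by linarith⟩
  rw [mul_div_assoc]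
  have : (0 : ℝ) ≤ k ^ 4 / n ^ 2 := by positivity
  have h8 := h5.1
  generalize (k : ℝ) ^ 4 / n ^ 2 = t at *
  linarith

theorem sum_le (k : ℕ) (t : ℕ) (g : ℕ → ℂ) (h : ℕ → ℝ) (c : ℝ) (hg : ∀ a < t, ‖g a‖ ≤ h a * c) :
    ‖∑ a ∈ range t, stirlingSecond k a * g a‖ ≤ (∑ a ∈ range t, stirlingSecond k a * h a) * c := by
  rw [sum_mul]
  refine norm_sum_le_of_le _ fun a ha => ?_
  rw [norm_mul, Complex.norm_natCast, mul_assoc]
  gcongr
  exact hg a (mem_range.1 ha)

theorem mono_bd {n : ℕ} (hn : 1 ≤ n) (k j : ℕ) {x y : ℂ} {r s : ℝ} (hr : 1 ≤ r) (hs : 1 ≤ s)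
    (hx : ‖x‖ ≤ r) (hy : ‖y‖ ≤ s) :
    ‖B n (fun u v => u ^ k * v ^ j) x y - x ^ k * y ^ j - 1 / (2 * n) *
      (x * (1 - x) * (k * (k - 1 : ℕ) * x ^ (k - 1 - 1) * y ^ j) -
        2 * x * y * (j * k * x ^ (k - 1) * y ^ (j - 1)) +
        y * (1 - y) * (j * (j - 1 : ℕ) * x ^ k * y ^ (j - 1 - 1)))‖ ≤
      8 * (k + j) ^ 4 * (r ^ k * s ^ j) / n ^ 2 := by
  have h0 : (0 : ℝ) < n := by exact_mod_cast hn
  have h0' : (n : ℂ) ≠ 0 := by exact_mod_cast h0.ne'
  have hm : ∀ a ≤ k, ∀ b ≤ j, ‖x ^ a * y ^ b‖ ≤ r ^ k * s ^ j := fun a ha b hb => by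
    rw [norm_mul, norm_pow, norm_pow]
    exact mul_le_mul ((pow_le_pow_left₀ (norm_nonneg _) hx a).trans (pow_le_pow_right₀ hr ha))
      ((pow_le_pow_left₀ (norm_nonneg _) hy b).trans (pow_le_pow_right₀ hs hb)) (by positivity)
      (by positivity)
  set ρ := r ^ k * s ^ j
  have hρ : 0 ≤ ρ := by positivity
  have hh : ∀ a ≤ k, ∀ b ≤ j, ‖(n.descFactorial (a + b) : ℂ) * x ^ a * y ^ b‖ ≤
      n.descFactorial b * (n.descFactorial a * ρ) := fun a ha b hb => by
    rw [mul_assoc, norm_mul, Complex.norm_natCast, ← mul_assoc]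
    refine mul_le_mul ?_ (hm a ha b hb) (norm_nonneg _) (by positivity)
    rw [← descFactorial_mul_descFactorial (Nat.le_add_right a b), Nat.add_sub_cancel_left]
    exact_mod_cast Nat.mul_le_mul_right _ (descFactorial_le b (Nat.sub_le n a))
  have hd : ∀ z : ℂ, ∀ i : ℕ, z * (i * z ^ (i - 1)) = i * z ^ i := fun z i => by
    rcases i with _ | i
    · simp
    · rw [Nat.add_sub_cancel]
      ring
  have hc : ∀ i : ℕ, (i * (i - 1 : ℕ) : ℂ) = 2 * i.choose 2 := fun i => by
    rw [cast_choose_two]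
    rcases i with _ | i
    · simp
    · push_cast
      ring
  have he : ∀ z : ℂ, ∀ i : ℕ, z * (1 - z) * (i * (i - 1 : ℕ) * z ^ (i - 1 - 1)) =
      2 * i.choose 2 * (z ^ (i - 1) - z ^ i) := fun z i => by
    linear_combination ((1 - z) * i) * hd z (i - 1) - ((i - 1 : ℕ) : ℂ) * hd z i +
      (z ^ (i - 1) - z ^ i) * hc i
  set T1 := ∑ a ∈ range (k - 1), stirlingSecond k a * ∑ b ∈ range (j + 1), stirlingSecond j b *
    ((n.descFactorial (a + b) : ℂ) * x ^ a * y ^ b)
  set T2 := ∑ b ∈ range (j - 1), stirlingSecond j b *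
    ((n.descFactorial (k + b) : ℂ) * x ^ k * y ^ b)
  set T3 := ∑ b ∈ range j, stirlingSecond j b *
    ((n.descFactorial (k - 1 + b) : ℂ) * x ^ (k - 1) * y ^ b)
  have hK : (k : ℝ) ≤ k + j := by simp
  have hJ : (j : ℝ) ≤ k + j := by simp
  have hN : ∀ i, (n.descFactorial i : ℝ) / n ^ i ≤ 1 := fun i => (D_bd hn i).2.1
  have hnorm : ‖((n : ℂ) ^ k * n ^ j)‖ = n ^ k * n ^ j := by simp
  have t1 : ‖T1 / (n ^ k * n ^ j)‖ ≤ 2 * (k + j) ^ 4 / n ^ 2 * ρ := by
    have h1 := sum_le k (k - 1) _ (fun a => n.descFactorial a) (n ^ j * ρ) fun a ha => by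
      refine (sum_le j (j + 1) _ _ _ fun b hb => hh a (by omega) b (by omega)).trans (le_of_eq ?_)
      rw [show ∑ b ∈ range (j + 1), stirlingSecond j b * (n.descFactorial b : ℝ) = n ^ j by
        exact_mod_cast (stir n j).symm]
      ring
    rw [norm_div, hnorm]
    calc _ ≤ _ := div_le_div_of_nonneg_right h1 (by positivity)
      _ = (∑ a ∈ range (k - 1), stirlingSecond k a * (n.descFactorial a : ℝ)) / n ^ k * ρ := by
          field_simp
      _ ≤ _ := by
          gcongr ?_ * _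
          exact (rest hn k).2.1.trans (by gcongr)
  have t2 : ‖T2 / (n ^ k * n ^ j)‖ ≤ 2 * (k + j) ^ 4 / n ^ 2 * ρ := by
    have h1 := sum_le j (j - 1) _ _ _ fun b hb => hh k le_rfl b (by omega)
    rw [norm_div, hnorm]
    calc _ ≤ _ := div_le_div_of_nonneg_right h1 (by positivity)
      _ = (∑ a ∈ range (j - 1), stirlingSecond j a * (n.descFactorial a : ℝ)) / n ^ j *
          (n.descFactorial k / n ^ k) * ρ := by field_simp
      _ ≤ 2 * (k + j) ^ 4 / n ^ 2 * 1 * ρ := by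
          gcongr ?_ * ?_ * _
          exacts [(rest hn j).2.1.trans (by gcongr), hN k]
      _ = _ := by rw [mul_one]
  have t3 : ‖k.choose 2 * T3 / (n ^ k * n ^ j)‖ ≤ (k + j) ^ 4 / n ^ 2 * ρ := by
    have h1 := sum_le j j _ _ _ fun b hb => hh (k - 1) (by omega) b (by omega)
    rw [norm_div, hnorm, norm_mul, Complex.norm_natCast]
    calc _ ≤ _ := div_le_div_of_nonneg_right (mul_le_mul_of_nonneg_left h1 (cast_nonneg _))
          (by positivity)
      _ = (∑ a ∈ range j, stirlingSecond j a * (n.descFactorial a : ℝ)) / n ^ j *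
          (k.choose 2 * n.descFactorial (k - 1) / n ^ k) * ρ := by field_simp
      _ ≤ (k + j) ^ 2 / n * ((k + j) ^ 2 / n) * ρ := by
          gcongr ?_ * ?_ * _
          exacts [(rest hn j).1.trans (by gcongr), (rest hn k).2.2.trans (by gcongr)]
      _ = _ := by ring
  have t4 : ∀ c : ℝ, |c| ≤ (k + j) ^ 4 / n ^ 2 → ∀ a ≤ k, ∀ b ≤ j,
      ‖c * (x ^ a * y ^ b)‖ ≤ (k + j) ^ 4 / n ^ 2 * ρ := fun c hc a ha b hb => by
    rw [norm_mul, Complex.norm_real]
    exact mul_le_mul hc (hm a ha b hb) (norm_nonneg _) (by positivity)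
  have t5 := t4 _ (by
    obtain ⟨-, -, h1, h2⟩ := D_bd hn (k + j)
    rw [cast_add] at h2
    exact (abs_of_nonneg h1).trans_le h2) k le_rfl j le_rfl
  have t6 := t4 _ (D_pred hn k j) (k - 1) (by omega) j le_rfl
  have t7 := t4 _ (by simpa only [add_comm (j : ℝ)] using D_pred hn j k) k le_rfl (j - 1) (by omega)
  refine le_trans (le_of_eq (congrArg _ ?_)) ((norm_add_le_of_le (norm_add_le_of_le
    (norm_add_le_of_le (norm_add_le_of_le (norm_add_le_of_le t1 t2) t3) t5) t6) t7).trans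
      (le_of_eq (by ring)))
  rw [B_mono, split2, split2 j, split1 j]
  have h1 := he x k
  have h2 := he y j
  have h3 := hd x k
  have h4 := hd y j
  have h5 : ((k + j).choose 2 : ℂ) = k.choose 2 + j.choose 2 + k * j := by
    simp only [cast_choose_two]
    push_cast
    ring
  simp only [D, add_comm j k, add_comm (j - 1) k]
  push_cast
  rw [h5, pow_add]
  linear_combination (-(1 / (2 * n)) * y ^ j) * h1 - (1 / (2 * n) * x ^ k) * h2 +
    (1 / n * (y * (j * y ^ (j - 1)))) * h3 + (1 / n * (k * x ^ k)) * h4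

/-- absolute convergence in the open polydisc -/
def Cv (a : ℕ × ℕ → ℂ) (R S : ℝ) : Prop :=
  ∀ r s : ℝ, 0 ≤ r → r < R → 0 ≤ s → s < S → Summable fun p => ‖a p‖ * r ^ p.1 * s ^ p.2

theorem geo {r r' : ℝ} (h0 : 0 ≤ r) (h : r < r') : ∃ C : ℝ, 0 ≤ C ∧ ∀ k : ℕ,
    (k + 1) * r ^ k ≤ C * r' ^ k := by
  have h1 : 0 < r' := h0.trans_lt h
  have h2 : |r / r'| < 1 := by rwa [abs_of_nonneg (by positivity), div_lt_one h1]
  obtain ⟨C, hC⟩ := ((tendsto_self_mul_const_pow_of_abs_lt_one h2).add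
    (tendsto_pow_atTop_nhds_zero_of_abs_lt_one h2)).bddAbove_range
  have h3 : ∀ k : ℕ, (k + 1) * (r / r') ^ k ≤ C := fun k => by
    simpa [add_mul] using hC ⟨k, rfl⟩
  refine ⟨C, le_trans (by simp) (h3 0), fun k => ?_⟩
  have h4 := h3 k
  rwa [div_pow, ← mul_div_assoc, div_le_iff₀ (by positivity)] at h4

theorem Cv.mul {a b : ℕ × ℕ → ℂ} {R S : ℝ} (h : Cv a R S)
    (hb : ∀ p, ‖b p‖ ≤ (p.1 + p.2 + 1) * ‖a p‖) : Cv b R S := fun r s h1 h2 h3 h4 => by
  obtain ⟨r', h5, h6⟩ := exists_between h2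
  obtain ⟨s', h7, h8⟩ := exists_between h4
  obtain ⟨C, hC, h9⟩ := geo h1 h5
  obtain ⟨C', hC', h10⟩ := geo h3 h7
  have h11 := h1.trans h5.le
  refine Summable.of_nonneg_of_le (fun p => by positivity) (fun p => ?_)
    ((h r' s' h11 h6 (h3.trans h7.le) h8).mul_left (C * C'))
  calc _ ≤ ((p.1 + 1) * (p.2 + 1) * ‖a p‖) * r ^ p.1 * s ^ p.2 := by
        gcongr
        refine (hb p).trans ?_
        gcongr
        nlinarith [mul_nonneg (p.1.cast_nonneg (α := ℝ)) (p.2.cast_nonneg (α := ℝ))]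
    _ = ‖a p‖ * ((p.1 + 1) * r ^ p.1) * ((p.2 + 1) * s ^ p.2) := by ring
    _ ≤ ‖a p‖ * (C * r' ^ p.1) * (C' * s' ^ p.2) := by
        gcongr _ * ?_ * ?_
        exacts [h9 _, h10 _]
    _ = _ := by ring

theorem der {ι : Type} (c : ι → ℂ) (e : ι → ℕ) {r : ℝ} (hr : 1 ≤ r)
    (h : Summable fun i => ‖c i‖ * (e i + 1) * r ^ e i) {z : ℂ} (hz : ‖z‖ < r) :
    HasDerivAt (fun z => ∑' i, c i * z ^ e i) (∑' i, c i * (e i * z ^ (e i - 1))) z := by
  refine hasDerivAt_tsum_of_isPreconnected h Metric.isOpen_ball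
    (convex_ball (0 : ℂ) r).isPreconnected (fun i y _ => (hasDerivAt_pow _ y).const_mul _)
    (fun i y hy => ?_) (Metric.mem_ball_self (by linarith)) (h.of_norm_bounded fun i => ?_)
    (mem_ball_zero_iff.2 hz)
  · rw [norm_mul, norm_mul, norm_pow, Complex.norm_natCast, mul_assoc]
    have := (pow_le_pow_left₀ (norm_nonneg _) (mem_ball_zero_iff.1 hy).le (e i - 1)).trans
      (pow_le_pow_right₀ hr (Nat.sub_le _ _))
    gcongr
    simp
  · rw [norm_mul, norm_pow, mul_assoc, norm_zero]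
    gcongr
    exact (pow_le_pow_left₀ le_rfl (by linarith) _).trans
      (le_mul_of_one_le_left (by positivity) (by simp))

/-- series with shifted exponents -/
noncomputable def G (a : ℕ × ℕ → ℂ) (u v : ℕ → ℕ) (x y : ℂ) : ℂ :=
  ∑' p, a p * x ^ u p.1 * y ^ v p.2

theorem G_sm {a : ℕ × ℕ → ℂ} {R S : ℝ} (h : Cv a R S) (hR : 1 < R) (hS : 1 < S) {u v : ℕ → ℕ}
    (hu : ∀ i, u i ≤ i) (hv : ∀ i, v i ≤ i) {r s : ℝ} (h1 : 0 ≤ r) (h2 : r < R) (h3 : 0 ≤ s)
    (h4 : s < S) : Summable fun p => ‖a p‖ * r ^ u p.1 * s ^ v p.2 := by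
  refine Summable.of_nonneg_of_le (fun p => by positivity) (fun p => ?_)
    (h (max r 1) (max s 1) (by positivity) (max_lt h2 hR) (by positivity) (max_lt h4 hS))
  have h5 := (pow_le_pow_left₀ h1 (le_max_left r 1) (u p.1)).trans
    (pow_le_pow_right₀ (le_max_right _ _) (hu _))
  have h6 := (pow_le_pow_left₀ h3 (le_max_left s 1) (v p.2)).trans
    (pow_le_pow_right₀ (le_max_right _ _) (hv _))
  gcongr

theorem G_d1 {a : ℕ × ℕ → ℂ} {R S : ℝ} (h : Cv a R S) (hR : 1 < R) (hS : 1 < S) {u v : ℕ → ℕ}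
    (hu : ∀ i, u i ≤ i) (hv : ∀ i, v i ≤ i) {f : ℂ → ℂ → ℂ}
    (hf : ∀ x y, ‖x‖ < R → ‖y‖ < S → f x y = G a u v x y) :
    Cv (fun p => a p * u p.1) R S ∧ ∀ x y, ‖x‖ < R → ‖y‖ < S →
      d1 f x y = G (fun p => a p * u p.1) (fun i => u i - 1) v x y := by
  have hc : ∀ (p : ℕ × ℕ), (u p.1 : ℝ) + 1 ≤ p.1 + p.2 + 1 := fun p => by
    exact_mod_cast (by have := hu p.1; omega : u p.1 + 1 ≤ p.1 + p.2 + 1)
  refine ⟨h.mul fun p => ?_, fun x y hx hy => ?_⟩
  · rw [norm_mul, Complex.norm_natCast, mul_comm]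
    gcongr
    linarith [hc p]
  obtain ⟨r, h1, h2⟩ := exists_between (max_lt hx hR)
  have h3 := (le_max_right _ _).trans h1.le
  have h4 := G_sm (h.mul (b := fun p => a p * (u p.1 + 1 : ℕ)) fun p => by
    rw [norm_mul, Complex.norm_natCast, mul_comm]
    gcongr
    simpa using hc p) hR hS hu hv (by linarith) h2 (norm_nonneg y) hy
  have h5 := der (fun p : ℕ × ℕ => a p * y ^ v p.2) (fun p => u p.1) h3
    (h4.congr fun p => by simp only [norm_mul, Complex.norm_natCast, norm_pow]; push_cast; ring)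
    ((le_max_left _ _).trans_lt h1)
  refine (HasDerivAt.congr_of_eventuallyEq h5 ?_).deriv.trans (tsum_congr fun p => by ring)
  filter_upwards [Metric.isOpen_ball.mem_nhds (mem_ball_zero_iff.2 hx)] with z hz
  exact (hf z y (mem_ball_zero_iff.1 hz) hy).trans (tsum_congr fun p => by ring)

theorem G_d2 {a : ℕ × ℕ → ℂ} {R S : ℝ} (h : Cv a R S) (hR : 1 < R) (hS : 1 < S) {u v : ℕ → ℕ}
    (hu : ∀ i, u i ≤ i) (hv : ∀ i, v i ≤ i) {f : ℂ → ℂ → ℂ}
    (hf : ∀ x y, ‖x‖ < R → ‖y‖ < S → f x y = G a u v x y) :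
    Cv (fun p => a p * v p.2) R S ∧ ∀ x y, ‖x‖ < R → ‖y‖ < S →
      d2 f x y = G (fun p => a p * v p.2) u (fun i => v i - 1) x y := by
  have hc : ∀ (p : ℕ × ℕ), (v p.2 : ℝ) + 1 ≤ p.1 + p.2 + 1 := fun p => by
    exact_mod_cast (by have := hv p.2; omega : v p.2 + 1 ≤ p.1 + p.2 + 1)
  refine ⟨h.mul fun p => ?_, fun x y hx hy => ?_⟩
  · rw [norm_mul, Complex.norm_natCast, mul_comm]
    gcongr
    linarith [hc p]
  obtain ⟨r, h1, h2⟩ := exists_between (max_lt hy hS)
  have h3 := (le_max_right _ _).trans h1.le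
  have h4 := G_sm (h.mul (b := fun p => a p * (v p.2 + 1 : ℕ)) fun p => by
    rw [norm_mul, Complex.norm_natCast, mul_comm]
    gcongr
    simpa using hc p) hR hS hu hv (norm_nonneg x) hx (by linarith) h2
  have h5 := der (fun p : ℕ × ℕ => a p * x ^ u p.1) (fun p => v p.2) h3
    (h4.congr fun p => by simp only [norm_mul, Complex.norm_natCast, norm_pow]; push_cast; ring)
    ((le_max_left _ _).trans_lt h1)
  refine (HasDerivAt.congr_of_eventuallyEq h5 ?_).deriv.trans (tsum_congr fun p => by ring)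
  filter_upwards [Metric.isOpen_ball.mem_nhds (mem_ball_zero_iff.2 hy)] with z hz
  exact hf x z hx (mem_ball_zero_iff.1 hz)

theorem G_has {a : ℕ × ℕ → ℂ} {R S : ℝ} (h : Cv a R S) (hR : 1 < R) (hS : 1 < S) {u v : ℕ → ℕ}
    (hu : ∀ i, u i ≤ i) (hv : ∀ i, v i ≤ i) {x y : ℂ} (hx : ‖x‖ < R) (hy : ‖y‖ < S) :
    HasSum (fun p => a p * x ^ u p.1 * y ^ v p.2) (G a u v x y) :=
  ((G_sm h hR hS hu hv (norm_nonneg x) hx (norm_nonneg y) hy).of_norm_bounded fun p => by
    simp).hasSum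

theorem result (R S : ℝ) (hR : 1 < R) (hS : 1 < S) (f : ℂ → ℂ → ℂ) (a : ℕ × ℕ → ℂ)
    (hf : ∀ x y : ℂ, ‖x‖ < R → ‖y‖ < S → HasSum (fun p => a p * x ^ p.1 * y ^ p.2) (f x y))
    (r s : ℝ) (hr : 1 ≤ r) (hrR : r < R) (hs : 1 ≤ s) (hsS : s < S) :
    ∃ C : ℝ, ∀ n : ℕ, 1 ≤ n → ∀ x y : ℂ, ‖x‖ ≤ r → ‖y‖ ≤ s → ‖E n f x y‖ ≤ C / n ^ 2 := by
  have h : Cv a R S := fun r s h1 h2 h3 h4 => by
    simpa [abs_of_nonneg h1, abs_of_nonneg h3] using (hf r s (by simpa [abs_of_nonneg h1])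
      (by simpa [abs_of_nonneg h3])).summable.norm
  have h0 : ∀ x y, ‖x‖ < R → ‖y‖ < S → f x y = G a id id x y := fun x y hx hy =>
    (hf x y hx hy).tsum_eq.symm
  have i0 : ∀ i : ℕ, id i ≤ i := fun _ => le_rfl
  have i1 : ∀ i : ℕ, id i - 1 ≤ i := fun _ => Nat.sub_le _ _
  have i2 : ∀ i : ℕ, id i - 1 - 1 ≤ i := fun i => (Nat.sub_le _ _).trans (i1 i)
  obtain ⟨c1, e1⟩ := G_d1 h hR hS i0 i0 h0
  obtain ⟨c2, e2⟩ := G_d2 h hR hS i0 i0 h0
  obtain ⟨c11, e11⟩ := G_d1 c1 hR hS i1 i0 e1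
  obtain ⟨c12, e12⟩ := G_d1 c2 hR hS i0 i1 e2
  obtain ⟨c22, e22⟩ := G_d2 c2 hR hS i0 i1 e2
  have hp : ∀ m : ℕ, Cv (fun p => a p * (p.1 + p.2 : ℕ) ^ m) R S := fun m => by
    induction m with
    | zero => simpa using h
    | succ m ih =>
      refine ih.mul fun p => ?_
      rw [pow_succ, ← mul_assoc, norm_mul, Complex.norm_natCast, mul_comm]
      gcongr
      simp
  have h4 := ((hp 4 r s (by linarith) hrR (by linarith) hsS).hasSum.mul_left 8)
  refine ⟨_, fun n hn x y hx hy => HasSum.norm_le_of_bounded ?_ (h4.div_const _) fun p =>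
    (norm_mul_le_of_le le_rfl (mono_bd hn p.1 p.2 hr hs hx hy) (a₁ := a p)).trans (le_of_eq ?_)⟩
  swap
  · simp only [norm_mul, norm_pow, Complex.norm_natCast]
    push_cast
    ring
  have hx' := hx.trans_lt hrR
  have hy' := hy.trans_lt hsS
  have hB : HasSum (fun p => a p * B n (fun u v => u ^ p.1 * v ^ p.2) x y) (B n f x y) := by
    simp only [B, mul_sum]
    have hq : ∀ k ≤ n, ‖((k : ℕ) : ℂ) / n‖ ≤ 1 := fun k hk => by
      rw [norm_div, Complex.norm_natCast, Complex.norm_natCast]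
      exact div_le_one_of_le₀ (by exact_mod_cast hk) (cast_nonneg _)
    refine hasSum_sum fun k hk => hasSum_sum fun j hj => ?_
    have := mem_range.1 hk
    have := mem_range.1 hj
    exact ((hf _ _ ((hq k (by omega)).trans_lt hR) ((hq j (by omega)).trans_lt hS)).mul_left
      _).congr_fun fun p => by ring
  rw [E, e11 x y hx' hy', e12 x y hx' hy', e22 x y hx' hy']
  refine ((hB.sub (hf x y hx' hy')).sub (((((G_has c11 hR hS i2 i0 hx' hy').mul_left _).sub
    ((G_has c12 hR hS i1 i1 hx' hy').mul_left _)).add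
    ((G_has c22 hR hS i0 i2 hx' hy').mul_left _)).mul_left _)).congr_fun fun p => ?_
  simp only [id]
  ring

end Pool.Agent.Results.MP_814f17_an.Yes
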